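import Pool.Agent.FDT.Examples

/-!
# Growth of the largest degree or of the number of the irreducible factors

The definitions are in `Pool/Agent/FDT/Defs.lean`.
-/

set_option autoImplicit false

open Polynomial Filter

namespace Pool.Agent.Results.MP_fbd068_nt.Cyclic

open Pool.Agent.FDT

/-- Every map of the class `Cyc` belongs to the class `QCyc` (take `π = X`). -/
theorem qcyc_of_cyc {p : ℕ} {K : Type*} [Field K] {g h : K[X]} (hR : Cyc p g h) :
    QCyc p g h := by
  have e1 : ∀ (P : K[X]) (m : ℕ), P.natDegree ≤ m → hsub X 1 P m = P := fun P m hm => by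
    rw [hsub]
    simp only [one_pow, mul_one]
    exact (P.as_sum_range_C_mul_X_pow' (Nat.lt_succ_of_le hm)).symm
  refine ⟨X, 1, g, h, isCoprime_one_right, ?_, hR, ?_⟩
  · rw [natDegree_X]
    exact le_max_left _ _
  · rw [e1 g _ (le_max_left _ _), e1 h _ (le_max_right _ _), natDegree_X, natDegree_one]
    simp only [hsub, max_eq_left zero_le_one, Finset.sum_range_succ, coeff_X, coeff_one]
    simp
    ring

/-- All rational functions of degree two over a field belong to the class over any extension. -/
theorem quad_mem {p : ℕ} {F K : Type*} [Field F] [Field K] [Algebra F K] {g h : F[X]}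
    (hc : IsCoprime g h) (hd : max g.natDegree h.natDegree = 2) :
    QCyc p (g.map (algebraMap F K)) (h.map (algebraMap F K)) :=
  qcyc_of_cyc (Cyc.quad _ _ (hc.map (mapRingHom (algebraMap F K))) (by
    rw [natDegree_map, natDegree_map, hd]))

/-- Powers and Dickson polynomials over `F` belong to the class over the algebraic closure. -/
theorem special_mem {p : ℕ} {F : Type*} [Field F] {g h : F[X]} {n : ℕ} (hn : n ≠ 0)
    (hg : g = X ^ n ∨ g = dickson 1 1 n) (hh : h = 1) :
    QCyc p (g.map (algebraMap F (AlgebraicClosure F)))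
      (h.map (algebraMap F (AlgebraicClosure F))) := by
  rw [hh, Polynomial.map_one]
  rcases hg with rfl | rfl
  · rw [Polynomial.map_pow, map_X]
    exact qcyc_of_cyc (cyc_pow hn)
  · rw [map_dickson, map_one]
    exact qcyc_dickson hn

/-- **Q1 for a class of maps.**  Let `R = g / h` be a nonconstant rational function over a finite
field `F` which is in the class `QCyc` over the algebraic closure; this contains all rational
functions of degree two, all powers `x ^ n` and all Dickson polynomials `D_n(x, 1)`, `n ≥ 1`.  Let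
`f ≠ 0` be a polynomial such that `f` has a root outside of the base field which is not
`R`-critical, or such that `δ(n)` is unbounded.  Then `log M(n) ≫ n` or `log N(n) ≫ n`. -/
theorem result {F : Type} [Field F] [Fintype F] (p : ℕ) [Fact p.Prime] [CharP F p]
    (g h f : F[X]) (hc : IsCoprime g h) (hd : 1 ≤ max g.natDegree h.natDegree) (hf : f ≠ 0)
    (hR : QCyc p (g.map (algebraMap F (AlgebraicClosure F)))
        (h.map (algebraMap F (AlgebraicClosure F))) ∨
      max g.natDegree h.natDegree = 2 ∨
      ∃ n, n ≠ 0 ∧ (g = X ^ n ∨ g = dickson 1 1 n) ∧ h = 1)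
    (hδ : (∃ α : AlgebraicClosure F, α ∉ Set.range (algebraMap F (AlgebraicClosure F)) ∧
      aeval α f = 0 ∧ ¬ RCrit g h α) ∨ ∀ B : ℕ, ∃ n, B < dlt g h f n) :
    (∃ c : ℝ, 0 < c ∧ ∀ᶠ n : ℕ in atTop, (n : ℝ) ≤ c * Real.log (mx g h f n)) ∨
    ∃ c : ℝ, 0 < c ∧ ∀ᶠ n : ℕ in atTop, (n : ℝ) ≤ c * Real.log (nb g h f n) := by
  have hR' : QCyc p (g.map (algebraMap F (AlgebraicClosure F)))
      (h.map (algebraMap F (AlgebraicClosure F))) := by
    rcases hR with h1 | h1 | ⟨n, hn, hg, hh⟩
    · exact h1
    · exact quad_mem hc h1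
    · exact special_mem hn hg hh
  have hδ' : ∀ B : ℕ, ∃ n, B < dlt g h f n := by
    rcases hδ with ⟨α, h1, h2, h3⟩ | h
    · exact dlt_unbounded hc (itr_ne_zero (AlgebraicClosure F) hc hd hf) h1 h2 h3
    · exact h
  have hchar : CharP (AlgebraicClosure F) p := charP_of_injective_algebraMap
    (algebraMap F (AlgebraicClosure F)).injective p
  obtain ⟨n, hp, hn⟩ := FiniteField.card F p
  obtain ⟨C, j, n₀, hC, hn₀, hmain⟩ := main (K := AlgebraicClosure F) (p := p) hn n.pos hc hR' hδ'
  rcases hmain with h1 | h1
  · exact Or.inl (log_growth _ hC hn₀ h1)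
  · exact Or.inr (log_growth _ hC hn₀ h1)

end Pool.Agent.Results.MP_fbd068_nt.Cyclic
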